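import Pool.Agent.Helper88.CG.Goals
import Pool.Agent.Helper33.RR.GT
import Pool.Agent.Helper88.RR.KI

/-! # Packet CG-CM (MP_69be96_nt): combinatorial comparison of the mean squares -/

set_option autoImplicit false

open Finset Filter Topology

open scoped Classical

namespace Pool.Agent.Helper74.CG

open Pool.Agent.Helper88.PP (pr Rg om Sf SS uu vv ee LA VV QQ cost)
open Pool.Agent.Helper88.RR (gg ab TB WB nz DB VM wb)
open Pool.Agent.Helper88.CG
open Pool.Agent.Helper33.RR (card_labels gg_nonneg gg_succ om_nonneg VV_nonneg)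

/-- the support of the label function -/
noncomputable def sp {P : Finset ℕ} (r : P → ℕ) : Finset P := univ.filter (fun i => r i ≠ 0)

/-- the product of the weights of the labels -/
noncomputable def Wr (m q z : ℕ) {P : Finset ℕ} (r : P → ℕ) : ℝ :=
  ∏ i : P, (if r i = 0 then 1 else ab m q z (r i) ^ 2 * (Nat.totient (r i) : ℝ))

/-- the total weight of the label functions with the support `A` -/
noncomputable def Ts (m q M z : ℕ) (P : Finset ℕ) (A : Finset P) : ℝ :=
  ∑ r ∈ (TB m q M z P).filter (fun r => sp r = A), Wr m q z r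

theorem Wr_nonneg (m q z : ℕ) {P : Finset ℕ} (r : P → ℕ) : 0 ≤ Wr m q z r := by
  refine Finset.prod_nonneg fun i _ => ?_
  split_ifs
  · exact zero_le_one
  · positivity

theorem Ts_nonneg (m q M z : ℕ) (P : Finset ℕ) (A : Finset P) : 0 ≤ Ts m q M z P A :=
  Finset.sum_nonneg fun _ _ => Wr_nonneg _ _ _ _

theorem TB_perm {m q M z : ℕ} {P : Finset ℕ} (σ : Equiv.Perm P) {r : P → ℕ}
    (hr : r ∈ TB m q M z P) : r ∘ σ ∈ TB m q M z P := by
  simp only [TB, mem_filter, Fintype.mem_piFinset] at hr ⊢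
  refine ⟨fun i => hr.1 (σ i), ?_⟩
  have h : cost z (r ∘ σ) = cost z r :=
    Equiv.sum_comp σ (fun i => if r i = 0 then 0 else ee z (r i))
  rw [h]
  exact hr.2

theorem Wr_perm (m q z : ℕ) {P : Finset ℕ} (σ : Equiv.Perm P) (r : P → ℕ) :
    Wr m q z (r ∘ σ) = Wr m q z r :=
  Equiv.prod_comp σ (fun i => if r i = 0 then 1 else ab m q z (r i) ^ 2 *
    (Nat.totient (r i) : ℝ))

theorem Ts_perm {m q M z : ℕ} {P : Finset ℕ} {A A' : Finset P} (h : A.card = A'.card) :
    Ts m q M z P A = Ts m q M z P A' := by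
  obtain ⟨σ, hσ⟩ : ∃ σ : Equiv.Perm P, ∀ i, σ i ∈ A' ↔ i ∈ A := by
    let e : {x // x ∈ A} ≃ {x // x ∈ A'} := Finset.equivOfCardEq h
    refine ⟨e.extendSubtype, fun i => ⟨fun h1 => ?_, fun h1 => ?_⟩⟩
    · by_contra h2
      exact (e.extendSubtype_not_mem i h2) h1
    · exact e.extendSubtype_mem i h1
  unfold Ts
  refine Finset.sum_bij' (fun r _ => r ∘ σ.symm) (fun r _ => r ∘ σ) ?_ ?_ ?_ ?_ ?_
  · intro r hr
    rw [mem_filter] at hr ⊢
    refine ⟨TB_perm _ hr.1, ?_⟩
    ext i
    rw [← hr.2] at hσ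
    have h1 := hσ (σ.symm i)
    rw [Equiv.apply_symm_apply] at h1
    rw [h1]
    simp [sp]
  · intro r hr
    rw [mem_filter] at hr ⊢
    refine ⟨TB_perm _ hr.1, ?_⟩
    ext i
    rw [← hσ i, ← hr.2]
    simp [sp]
  · intro r _
    funext i
    simp
  · intro r _
    funext i
    simp
  · intro r _
    exact (Wr_perm m q z σ.symm r).symm

/-- The same as a function of the cardinality. -/
noncomputable def tau (m q M z : ℕ) (P : Finset ℕ) (k : ℕ) : ℝ :=
  if h : ∃ A : Finset P, A.card = k then Ts m q M z P h.choose else 0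

theorem Ts_eq (m q M z : ℕ) (P : Finset ℕ) (A : Finset P) :
    Ts m q M z P A = tau m q M z P A.card := by
  have h : ∃ A' : Finset P, A'.card = A.card := ⟨A, rfl⟩
  rw [tau, dif_pos h]
  exact Ts_perm h.choose_spec.symm

theorem tau_nonneg (m q M z : ℕ) (P : Finset ℕ) (k : ℕ) : 0 ≤ tau m q M z P k := by
  unfold tau
  split_ifs with h
  · exact Ts_nonneg _ _ _ _ _ _
  · exact le_rfl

theorem tau_zero {m q M z : ℕ} (hm : 1 ≤ m) (hz : 2 ≤ z) (P : Finset ℕ) {k : ℕ}
    (hk : M / m < k) : tau m q M z P k = 0 := by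
  unfold tau
  split_ifs with h
  · refine Finset.sum_eq_zero fun r hr => ?_
    exfalso
    rw [mem_filter] at hr
    have h1 := card_labels hm hz hr.1
    have h2 : nz r = h.choose.card := by
      rw [← hr.2]
      rfl
    have h3 := h.choose_spec
    omega
  · rfl

theorem sum_sp (m q M z : ℕ) (P : Finset ℕ) (f : Finset P → ℝ) :
    ∑ r ∈ TB m q M z P, f (sp r) * Wr m q z r = ∑ A : Finset P, f A * tau m q M z P A.card := by
  rw [← Finset.sum_fiberwise (TB m q M z P) sp]
  refine Finset.sum_congr rfl fun A _ => ?_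
  rw [← Ts_eq, Ts, Finset.mul_sum]
  refine Finset.sum_congr rfl fun r hr => ?_
  rw [(mem_filter.1 hr).2]

theorem DB_eq (m q M z y : ℕ) (P : Finset ℕ) :
    DB m q M z y P = ∑ k ∈ range (P.card + 1), (P.card.choose k : ℝ) *
      (gg y z k * tau m q M z P k) := by
  have h1 : DB m q M z y P = ∑ r ∈ TB m q M z P, gg y z (sp r).card * Wr m q z r := rfl
  rw [h1, sum_sp m q M z P (fun A => gg y z A.card)]
  have h2 := Finset.sum_powerset_apply_card (fun k => gg y z k * tau m q M z P k)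
    (x := (univ : Finset P))
  rw [Finset.powerset_univ] at h2
  rw [h2]
  have h3 : (univ : Finset P).card = P.card := by simp
  rw [h3]
  refine Finset.sum_congr rfl fun k _ => ?_
  rw [nsmul_eq_mul]

theorem RS_eq (m q M z : ℕ) {P S : Finset ℕ} (hS : S ⊆ P) :
    (∑ r ∈ TB m q M z P, (if ∀ i, r i ≠ 0 → (i : ℕ) ∈ S then
      ∏ i : P, (if r i = 0 then 1 else ab m q z (r i) ^ 2 * (Nat.totient (r i) : ℝ)) else 0)) =
    ∑ k ∈ range (P.card + 1), (S.card.choose k : ℝ) * tau m q M z P k := by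
  obtain ⟨S', hS'⟩ : ∃ S' : Finset P, S' = univ.filter (fun i : P => (i : ℕ) ∈ S) :=
    ⟨_, rfl⟩
  have hc : S'.card = S.card := by
    rw [← Finset.card_map (Function.Embedding.subtype (· ∈ P))]
    congr 1
    ext n
    simp only [hS', Finset.mem_map, mem_filter, mem_univ, true_and, Function.Embedding.subtype_apply,
      Subtype.exists, exists_and_left, exists_prop, exists_eq_right_right]
    constructor
    · intro h1
      exact h1.1
    · intro h
      exact ⟨h, hS h⟩
  have h1 : (∑ r ∈ TB m q M z P, (if ∀ i, r i ≠ 0 → (i : ℕ) ∈ S then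
      ∏ i : P, (if r i = 0 then 1 else ab m q z (r i) ^ 2 * (Nat.totient (r i) : ℝ)) else 0)) =
      ∑ r ∈ TB m q M z P, (if sp r ⊆ S' then (1 : ℝ) else 0) * Wr m q z r := by
    refine Finset.sum_congr rfl fun r _ => ?_
    have h2 : (∀ i, r i ≠ 0 → (i : ℕ) ∈ S) ↔ sp r ⊆ S' := by
      constructor
      · intro h i hi
        rw [hS', mem_filter]
        exact ⟨mem_univ _, h i (mem_filter.1 hi).2⟩
      · intro h i hi
        have := h (mem_filter.2 ⟨mem_univ i, hi⟩ : i ∈ sp r)
        rw [hS', mem_filter] at this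
        exact this.2
    by_cases h : sp r ⊆ S'
    · rw [if_pos h, if_pos (h2.2 h), one_mul]
      rfl
    · rw [if_neg h, if_neg (fun h' => h (h2.1 h')), zero_mul]
  rw [h1, sum_sp m q M z P (fun A => if A ⊆ S' then (1 : ℝ) else 0)]
  have h2 := Finset.sum_powerset_apply_card (fun k => tau m q M z P k) (x := S')
  have h3 : ∑ A : Finset P, (if A ⊆ S' then (1 : ℝ) else 0) * tau m q M z P A.card =
      ∑ A ∈ S'.powerset, tau m q M z P A.card := by
    rw [← Finset.sum_filter_add_sum_filter_not (univ : Finset (Finset P)) (fun A => A ⊆ S')]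
    have h4 : ∑ A ∈ univ.filter (fun A : Finset P => ¬ A ⊆ S'),
        (if A ⊆ S' then (1 : ℝ) else 0) * tau m q M z P A.card = 0 := by
      refine Finset.sum_eq_zero fun A hA => ?_
      rw [if_neg (mem_filter.1 hA).2, zero_mul]
    rw [h4, add_zero]
    refine Finset.sum_congr ?_ fun A hA => ?_
    · ext A
      simp
    · rw [if_pos (mem_powerset.1 hA), one_mul]
  rw [h3, h2, hc]
  have h4 : S.card ≤ P.card := Finset.card_le_card hS
  refine Eq.trans (Finset.sum_congr rfl fun k _ => by rw [nsmul_eq_mul]) ?_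
  refine Finset.sum_subset (Finset.range_subset_range.2 (by omega)) fun k _ hk => ?_
  rw [Finset.mem_range, not_lt] at hk
  rw [Nat.choose_eq_zero_of_lt (by omega), Nat.cast_zero, zero_mul]

theorem gg_le {y z k : ℕ} (hk : k ≤ y) : gg y z k ≤ om y z ^ k := by
  induction k with
  | zero => simp [gg]
  | succ k ih =>
    refine (gg_succ hk).trans ?_
    rw [pow_succ']
    exact mul_le_mul_of_nonneg_left (ih (by omega)) (om_nonneg y z)

/-- The mean square is at most the product. -/
theorem DB_le {m q M z y : ℕ} (hy : ∀ P : Finset ℕ, ∀ r ∈ TB m q M z P, nz r ≤ y)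
    (P : Finset ℕ) : DB m q M z y P ≤ (1 + om y z *
      ∑ s ∈ LA z m (q * m), ab m q z s ^ 2 * (Nat.totient s : ℝ)) ^ P.card := by
  have h0 : (0 : ℕ) ∉ LA z m (q * m) := fun h => (Pool.Agent.Helper88.RR.LA_ne h).1 rfl
  calc DB m q M z y P ≤ ∑ r ∈ TB m q M z P, ∏ i : P, (if r i = 0 then (1 : ℝ) else
        om y z * (ab m q z (r i) ^ 2 * (Nat.totient (r i) : ℝ))) := by
        refine Finset.sum_le_sum fun r hr => ?_
        have h1 : ∏ i : P, (if r i = 0 then (1 : ℝ) else
            om y z * (ab m q z (r i) ^ 2 * (Nat.totient (r i) : ℝ))) =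
            om y z ^ nz r * Wr m q z r := by
          have h2 : om y z ^ nz r = ∏ i : P, (if r i = 0 then (1 : ℝ) else om y z) := by
            rw [nz, ← Finset.prod_const, Finset.prod_filter]
            refine Finset.prod_congr rfl fun i _ => ?_
            by_cases h : r i = 0 <;> simp [h]
          rw [h2, Wr, ← Finset.prod_mul_distrib]
          refine Finset.prod_congr rfl fun i _ => ?_
          by_cases h : r i = 0 <;> simp [h]
        rw [h1]
        exact mul_le_mul_of_nonneg_right (gg_le (hy P r hr)) (Wr_nonneg m q z r)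
    _ ≤ ∑ r ∈ Fintype.piFinset (fun _ : P => insert 0 (LA z m (q * m))),
        ∏ i : P, (if r i = 0 then (1 : ℝ) else
        om y z * (ab m q z (r i) ^ 2 * (Nat.totient (r i) : ℝ))) := by
        refine Finset.sum_le_sum_of_subset_of_nonneg (Finset.filter_subset _ _)
          fun r _ _ => Finset.prod_nonneg fun i _ => ?_
        split_ifs
        · exact zero_le_one
        · have := om_nonneg y z
          positivity
    _ = _ := by
        rw [← Finset.prod_univ_sum (fun _ : P => insert 0 (LA z m (q * m)))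
          (fun _ s => if s = 0 then (1 : ℝ) else om y z * (ab m q z s ^ 2 *
            (Nat.totient s : ℝ)))]
        rw [Finset.prod_const]
        have h3 : (univ : Finset P).card = P.card := by simp
        rw [h3, Finset.sum_insert h0, if_pos rfl]
        congr 2
        rw [Finset.mul_sum]
        refine Finset.sum_congr rfl fun s hs => ?_
        rw [if_neg (Pool.Agent.Helper88.RR.LA_ne hs).1]

/-- The comparison of the binomial coefficients. -/
theorem choose_cmp {N s k K : ℕ} {o η : ℝ} (ho : 0 ≤ o) (hη0 : 0 < η) (hη : η < 1) (hk : k ≤ K)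
    (hμ : (K : ℝ) ^ 2 ≤ 3 * η / 4 * (N * o))
    (hs : (N : ℝ) * o * (1 - η / (4 * ((K : ℝ) + 1))) ≤ s) :
    (1 - η) * ((N.choose k : ℝ) * o ^ k) ≤ s.choose k := by
  rcases Nat.eq_zero_or_pos k with rfl | hk1
  · simp
    exact hη0.le
  have hK1 : (1 : ℝ) ≤ K := by exact_mod_cast (by omega : 1 ≤ K)
  obtain ⟨μ, hμd⟩ : ∃ μ : ℝ, μ = N * o := ⟨_, rfl⟩
  rw [← hμd] at hμ hs
  have hμ0 : 0 < μ := by
    by_contra h
    push Not at h
    nlinarith [mul_nonneg hη0.le (neg_nonneg.2 h)]
  obtain ⟨δ, hδ⟩ : ∃ δ : ℝ, δ = η / (4 * ((K : ℝ) + 1)) + K / μ := ⟨_, rfl⟩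
  have hKδ : (K : ℝ) * δ ≤ η := by
    have h1 : (K : ℝ) * (η / (4 * ((K : ℝ) + 1))) ≤ η / 4 := by
      rw [mul_div_assoc', div_le_div_iff₀ (by positivity) (by norm_num)]
      nlinarith
    have h2 : (K : ℝ) * (K / μ) ≤ 3 * η / 4 := by
      rw [mul_div_assoc', div_le_iff₀ hμ0]
      nlinarith
    rw [hδ, mul_add]
    linarith
  have hδ0 : 0 ≤ δ := by rw [hδ]; positivity
  have hδ1 : δ ≤ 1 := by nlinarith
  have h1 : μ * (1 - δ) ≤ s - K := by
    have h2 : μ * (1 - δ) = μ * (1 - η / (4 * ((K : ℝ) + 1))) - K := by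
      rw [hδ]
      field_simp
      ring
    rw [h2]
    linarith
  have h3 : 0 ≤ μ * (1 - δ) := mul_nonneg hμ0.le (by linarith)
  have hKs : K ≤ s := by
    have : (K : ℝ) ≤ s := by linarith
    exact_mod_cast this
  have h4 : ((s + 1 - k : ℕ) : ℝ) ^ k ≤ (k.factorial : ℝ) * (s.choose k : ℝ) := by
    have := Nat.pow_le_choose (α := ℝ) k s
    rw [div_le_iff₀ (by positivity)] at this
    linarith
  have h5 : μ * (1 - δ) ≤ ((s + 1 - k : ℕ) : ℝ) := by
    rw [Nat.cast_sub (by omega)]
    push_cast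
    have : (k : ℝ) ≤ K := by exact_mod_cast hk
    linarith
  have h6 : μ ^ k * (1 - η) ≤ (μ * (1 - δ)) ^ k := by
    rw [mul_pow]
    refine mul_le_mul_of_nonneg_left ?_ (by positivity)
    have h7 := one_add_mul_le_pow (a := -δ) (by linarith) k
    have h8 : (k : ℝ) * δ ≤ K * δ := mul_le_mul_of_nonneg_right (by exact_mod_cast hk) hδ0
    rw [← sub_eq_add_neg] at h7
    linarith
  have h7 : (k.factorial : ℝ) * (N.choose k : ℝ) ≤ (N : ℝ) ^ k := by
    have := Nat.choose_le_pow_div (α := ℝ) k N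
    rw [le_div_iff₀ (by positivity)] at this
    linarith
  have hf : (0 : ℝ) < k.factorial := by positivity
  have h8 : (k.factorial : ℝ) * ((1 - η) * ((N.choose k : ℝ) * o ^ k)) ≤
      (k.factorial : ℝ) * s.choose k := by
    calc (k.factorial : ℝ) * ((1 - η) * ((N.choose k : ℝ) * o ^ k))
        = (1 - η) * o ^ k * ((k.factorial : ℝ) * (N.choose k : ℝ)) := by ring
      _ ≤ (1 - η) * o ^ k * (N : ℝ) ^ k :=
          mul_le_mul_of_nonneg_left h7 (mul_nonneg (by linarith) (by positivity))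
      _ = μ ^ k * (1 - η) := by rw [hμd, mul_pow]; ring
      _ ≤ (μ * (1 - δ)) ^ k := h6
      _ ≤ ((s + 1 - k : ℕ) : ℝ) ^ k := pow_le_pow_left₀ h3 h5 k
      _ ≤ _ := h4
  exact le_of_mul_le_mul_left h8 hf

/-- CG-CM. -/
theorem cm (h : StmtVP) : StmtCM := by
  obtain ⟨c, hc, E1, hE1⟩ := h
  intro η hη
  obtain ⟨e0, he0⟩ : ∃ e0 : ℝ, e0 = max 1 (1 / η) := ⟨_, rfl⟩
  have he01 : 1 ≤ e0 := by rw [he0]; exact le_max_left _ _
  refine ⟨max E1 ⌈e0 ^ 12⌉₊, ?_⟩
  intro E z y hE hz hy P S hS hor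
  obtain ⟨hm, -, -, hK6, hm4, hV⟩ := hE1 E (le_trans (le_max_left _ _) hE)
  obtain ⟨hV1, -⟩ := hV z hz
  have hEe : e0 ^ 12 ≤ E := (Nat.le_ceil _).trans (by exact_mod_cast (le_max_right _ _).trans hE)
  obtain ⟨m, hmd⟩ : ∃ m, m = mE E := ⟨_, rfl⟩
  obtain ⟨q, hqd⟩ : ∃ q, q = qE E := ⟨_, rfl⟩
  obtain ⟨M, hMd⟩ : ∃ M, M = E / 16 := ⟨_, rfl⟩
  unfold Dt
  simp only [← hmd, ← hqd, ← hMd] at hm hK6 hm4 hV1 hor ⊢
  obtain ⟨K, hKd⟩ : ∃ K, K = M / m := ⟨_, rfl⟩
  rw [← hKd] at hK6 hor
  have hKy : K ≤ y := by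
    have h1 : K ≤ M := by rw [hKd]; exact Nat.div_le_self _ _
    have h2 : M ≤ E := by rw [hMd]; exact Nat.div_le_self _ _
    omega
  have hnz : ∀ P : Finset ℕ, ∀ r ∈ TB m q M z P, nz r ≤ K := fun P r hr => by
    rw [hKd]
    exact card_labels hm hz hr
  have hnzy : ∀ P : Finset ℕ, ∀ r ∈ TB m q M z P, nz r ≤ y := fun P r hr =>
    (hnz P r hr).trans hKy
  rw [RS_eq m q M z hS]
  have hRS0 : 0 ≤ ∑ k ∈ range (P.card + 1), (S.card.choose k : ℝ) * tau m q M z P k :=
    Finset.sum_nonneg fun k _ => mul_nonneg (by positivity) (tau_nonneg _ _ _ _ _ _)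
  have hD0 : 0 ≤ DB m q M z y P := Finset.sum_nonneg fun r hr =>
    mul_nonneg (gg_nonneg (hnzy P r hr)) (Wr_nonneg m q z r)
  rcases le_or_gt 1 η with hη1 | hη1
  · exact (mul_nonpos_of_nonpos_of_nonneg (by linarith) hD0).trans hRS0
  obtain ⟨e, hed⟩ : ∃ e : ℝ, e = (E : ℝ) ^ (1 / 12 : ℝ) := ⟨_, rfl⟩
  have he12 : e ^ 12 = E := by
    rw [hed, ← Real.rpow_natCast, ← Real.rpow_mul (by positivity)]
    norm_num
  have he0' : 0 ≤ e := by rw [hed]; positivity
  have hee0 : e0 ≤ e := by
    by_contra h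
    push Not at h
    have := pow_lt_pow_left₀ h he0' (by norm_num : 12 ≠ 0)
    linarith
  have he1 : 1 ≤ e := he01.trans hee0
  have hηe : 1 ≤ η * e := by
    have h1 : 1 / η ≤ e := by
      refine le_trans ?_ hee0
      rw [he0]
      exact le_max_right _ _
    rw [div_le_iff₀ hη] at h1
    linarith
  have hsq : √(E : ℝ) = e ^ 6 := by
    rw [← he12, show e ^ 12 = (e ^ 6) ^ 2 by ring]
    exact Real.sqrt_sq (by positivity)
  have ho := om_nonneg y z
  rcases le_or_gt ((P.card : ℝ) * om y z) (√(E : ℝ)) with hμ | hμ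
  · -- few points
    have h1 := DB_le hnzy P
    obtain ⟨t, ht⟩ : ∃ t, t = ∑ s ∈ LA z m (q * m), ab m q z s ^ 2 * (Nat.totient s : ℝ) :=
      ⟨_, rfl⟩
    rw [← ht] at h1
    have ht0 : 0 ≤ t := by rw [ht]; exact Finset.sum_nonneg fun _ _ => by positivity
    have hmt : (m : ℝ) * t ≤ 1 := by
      have h2 := Pool.Agent.Helper88.RR.sum_wt m q z (by linarith)
      have h3 : (m : ℝ) * t ≤ ∑ s ∈ LA z m (q * m), (ee z s : ℝ) *
          (ab m q z s ^ 2 * (Nat.totient s : ℝ)) := by
        rw [ht, Finset.mul_sum]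
        refine Finset.sum_le_sum fun s hs => mul_le_mul_of_nonneg_right ?_ (by positivity)
        have h4 : m ≤ ee z s := by
          have h5 : z ^ m ≤ s := (mem_filter.1 hs).2
          have h6 : m ≤ Nat.log z s := Nat.le_log_of_pow_le (by omega) h5
          unfold ee
          omega
        exact_mod_cast h4
      rw [h2] at h3
      refine h3.trans ?_
      rw [div_le_one (by linarith)]
      exact hV1
    have hm9 : e ^ 9 ≤ m := by
      by_contra h
      push Not at h
      have h2 : (m : ℝ) ^ 4 < (e ^ 9) ^ 4 := pow_lt_pow_left₀ h (by positivity) (by norm_num)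
      have h3 : ((E ^ 3 : ℕ) : ℝ) ≤ ((m ^ 4 : ℕ) : ℝ) := by exact_mod_cast hm4
      push_cast at h3
      rw [← he12] at h3
      have h4 : (e ^ 12) ^ 3 = (e ^ 9) ^ 4 := by ring
      linarith
    have hμt : (P.card : ℝ) * om y z * t ≤ η := by
      rw [hsq] at hμ
      have h2 : (P.card : ℝ) * om y z * t ≤ e ^ 6 * t := mul_le_mul_of_nonneg_right hμ ht0
      have h3 : e ^ 9 * t ≤ 1 := (mul_le_mul_of_nonneg_right hm9 ht0).trans hmt
      have h4 : e ^ 6 * t ≤ η * (e ^ 9 * t) := by
        have h5 : 1 ≤ η * e ^ 3 := by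
          have : e ≤ e ^ 3 := by
            calc e = e ^ 1 := (pow_one e).symm
              _ ≤ e ^ 3 := pow_le_pow_right₀ he1 (by norm_num)
          nlinarith
        have h6 : η * (e ^ 9 * t) = (η * e ^ 3) * (e ^ 6 * t) := by ring
        rw [h6]
        have h7 : 0 ≤ e ^ 6 * t := by positivity
        nlinarith
      have h5 : η * (e ^ 9 * t) ≤ η * 1 := mul_le_mul_of_nonneg_left h3 hη.le
      linarith
    have h2 : DB m q M z y P ≤ Real.exp η := by
      refine h1.trans ?_
      calc (1 + om y z * t) ^ P.card ≤ Real.exp (om y z * t) ^ P.card := by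
            refine pow_le_pow_left₀ (by positivity) ?_ _
            have := Real.add_one_le_exp (om y z * t)
            linarith
        _ = Real.exp (P.card * (om y z * t)) := by rw [Real.exp_nat_mul]
        _ ≤ Real.exp η := Real.exp_le_exp.2 (by linarith)
    have h3 : (1 - η) * Real.exp η ≤ 1 := by
      have h4 := Real.add_one_le_exp (-η)
      have h5 : Real.exp (-η) * Real.exp η = 1 := by rw [← Real.exp_add]; simp
      have h6 : 0 < Real.exp η := Real.exp_pos η
      nlinarith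
    have h4 : (1 : ℝ) ≤ ∑ k ∈ range (P.card + 1), (S.card.choose k : ℝ) * tau m q M z P k := by
      refine le_trans ?_ (Finset.single_le_sum (f := fun k => (S.card.choose k : ℝ) *
        tau m q M z P k) (fun k _ => mul_nonneg (by positivity) (tau_nonneg _ _ _ _ _ _))
        (mem_range.2 (Nat.succ_pos _)))
      simp only [Nat.choose_zero_right, Nat.cast_one, one_mul]
      have h5 := Ts_eq m q M z P ∅
      rw [Finset.card_empty] at h5
      rw [← h5, Ts]
      have h6 : (fun _ : P => (0 : ℕ)) ∈ (TB m q M z P).filter (fun r => sp r = ∅) := by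
        rw [mem_filter]
        refine ⟨?_, ?_⟩
        · simp only [TB, mem_filter, Fintype.mem_piFinset]
          refine ⟨fun i => mem_insert_self _ _, ?_⟩
          simp [cost]
        · simp [sp]
      refine le_trans ?_ (Finset.single_le_sum (f := fun r => Wr m q z r)
        (fun r _ => Wr_nonneg m q z r) h6)
      simp [Wr]
    calc (1 - η) * DB m q M z y P ≤ (1 - η) * Real.exp η :=
          mul_le_mul_of_nonneg_left h2 (by linarith)
      _ ≤ 1 := h3
      _ ≤ _ := h4
  · -- many points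
    have hs : (P.card : ℝ) * om y z * (1 - η / (4 * ((K : ℝ) + 1))) ≤ S.card := by
      rcases hor with h | h
      · exact absurd h (not_le.2 hμ)
      · exact h
    have hK2 : (K : ℝ) ^ 2 ≤ 3 * η / 4 * ((P.card : ℝ) * om y z) := by
      rw [hsq] at hμ
      have h1 : (2 * ((K : ℝ) + 2)) ≤ e ^ 2 := by
        by_contra h
        push Not at h
        have h2 := pow_lt_pow_left₀ h (by positivity) (by norm_num : 6 ≠ 0)
        have h3 : (((2 * (K + 2)) ^ 6 : ℕ) : ℝ) ≤ E := by exact_mod_cast hK6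
        push_cast at h3
        rw [← he12] at h3
        have h4 : (e ^ 2) ^ 6 = e ^ 12 := by ring
        linarith
      have h2 : (K : ℝ) ^ 2 ≤ e ^ 4 / 4 := by
        have h3 : (K : ℝ) ≤ e ^ 2 / 2 := by linarith
        have h4 : (0 : ℝ) ≤ K := by positivity
        calc (K : ℝ) ^ 2 ≤ (e ^ 2 / 2) ^ 2 := pow_le_pow_left₀ h4 h3 2
          _ = e ^ 4 / 4 := by ring
      have h3 : e ^ 4 / 4 ≤ 3 * η / 4 * e ^ 6 := by
        have h4 : 1 ≤ η * e ^ 2 := by nlinarith
        have h5 : 3 * η / 4 * e ^ 6 = 3 / 4 * (η * e ^ 2) * e ^ 4 := by ring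
        rw [h5]
        have h6 : 0 ≤ e ^ 4 := by positivity
        nlinarith
      have h4 : 3 * η / 4 * e ^ 6 ≤ 3 * η / 4 * ((P.card : ℝ) * om y z) :=
        mul_le_mul_of_nonneg_left hμ.le (by positivity)
      linarith
    rw [DB_eq, Finset.mul_sum]
    refine Finset.sum_le_sum fun k _ => ?_
    rcases le_or_gt k K with hk | hk
    · have h1 := choose_cmp ho hη hη1 hk hK2 hs
      have h2 := tau_nonneg m q M z P k
      have h3 : gg y z k ≤ om y z ^ k := gg_le (hk.trans hKy)
      calc (1 - η) * ((P.card.choose k : ℝ) * (gg y z k * tau m q M z P k))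
          = ((1 - η) * (P.card.choose k : ℝ)) * gg y z k * tau m q M z P k := by ring
        _ ≤ ((1 - η) * (P.card.choose k : ℝ)) * om y z ^ k * tau m q M z P k := by
            refine mul_le_mul_of_nonneg_right (mul_le_mul_of_nonneg_left h3 ?_) h2
            exact mul_nonneg (by linarith) (by positivity)
        _ = (1 - η) * ((P.card.choose k : ℝ) * om y z ^ k) * tau m q M z P k := by ring
        _ ≤ _ := mul_le_mul_of_nonneg_right h1 h2
    · rw [tau_zero hm hz P (by rw [← hKd]; exact hk)]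
      simp

end Pool.Agent.Helper74.CG
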